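import Pool.Agent.Helper95.LF.Det

namespace Pool.Agent.Helper95.LF

open Finset Matrix

variable {κ : Type} [Fintype κ]

theorem dv_eq_sum (A : Matrix κ κ ℝ) (x : κ → ℝ) :
    x ⬝ᵥ (A *ᵥ x) = ∑ i, ∑ j, x i * (A i j * x j) := by
  simp only [dotProduct, Matrix.mulVec, Finset.mul_sum]

theorem dv_close {A B : Matrix κ κ ℝ} {δ : ℝ} (h : ∀ i j, |A i j - B i j| ≤ δ)
    (hδ : δ * Fintype.card κ ≤ 1) (x : κ → ℝ) :
    x ⬝ᵥ (A *ᵥ x) ≤ x ⬝ᵥ (B *ᵥ x) + x ⬝ᵥ x := by
  rw [dv_eq_sum, dv_eq_sum]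
  have h1 : ∑ i, ∑ j, x i * (A i j * x j) - ∑ i, ∑ j, x i * (B i j * x j) ≤ x ⬝ᵥ x := by
    rw [← Finset.sum_sub_distrib]
    have h2 : ∀ i, ∑ j, x i * (A i j * x j) - ∑ j, x i * (B i j * x j) ≤
        ∑ j, δ * ((x i ^ 2 + x j ^ 2) / 2) := by
      intro i
      rw [← Finset.sum_sub_distrib]
      refine Finset.sum_le_sum fun j _ => ?_
      have h3 : x i * (A i j * x j) - x i * (B i j * x j) = (A i j - B i j) * (x i * x j) := by
        ring
      rw [h3]
      have hδ0 : 0 ≤ δ := (abs_nonneg _).trans (h i j)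
      calc (A i j - B i j) * (x i * x j) ≤ |(A i j - B i j) * (x i * x j)| := le_abs_self _
        _ = |A i j - B i j| * |x i * x j| := abs_mul _ _
        _ ≤ δ * ((x i ^ 2 + x j ^ 2) / 2) := by
            refine mul_le_mul (h i j) ?_ (abs_nonneg _) hδ0
            rw [abs_le]
            constructor <;> nlinarith [sq_nonneg (x i + x j), sq_nonneg (x i - x j)]
    refine (Finset.sum_le_sum fun i _ => h2 i).trans ?_
    have h4 : ∑ i, ∑ j, δ * ((x i ^ 2 + x j ^ 2) / 2) = δ * Fintype.card κ * (x ⬝ᵥ x) := by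
      have h5 : ∀ i, ∑ j, δ * ((x i ^ 2 + x j ^ 2) / 2) =
          δ / 2 * (Fintype.card κ * x i ^ 2) + δ / 2 * ∑ j, x j ^ 2 := by
        intro i
        rw [Finset.mul_sum, ← Finset.card_univ, ← nsmul_eq_mul, ← Finset.sum_const,
          Finset.mul_sum, ← Finset.sum_add_distrib]
        refine Finset.sum_congr rfl fun j _ => ?_
        ring
      simp only [h5]
      rw [Finset.sum_add_distrib, ← Finset.mul_sum, ← Finset.mul_sum, Finset.sum_const,
        Finset.card_univ, nsmul_eq_mul]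
      have h6 : x ⬝ᵥ x = ∑ i, x i ^ 2 := Finset.sum_congr rfl fun i _ => by ring
      rw [h6]
      ring
    rw [h4]
    have h7 := self_nonneg' x
    nlinarith
  linarith

theorem entry_le [DecidableEq κ] {A : Matrix κ κ ℝ} (hs : A.IsSymm) {K : ℝ}
    (h0 : ∀ x : κ → ℝ, 0 ≤ x ⬝ᵥ (A *ᵥ x)) (h1 : ∀ x : κ → ℝ, x ⬝ᵥ (A *ᵥ x) ≤ K * (x ⬝ᵥ x))
    (i j : κ) : |A i j| ≤ K := by
  have hd : ∀ i, A i i ≤ K := by
    intro i
    have := h1 (Pi.single i 1)
    rw [Matrix.mulVec_single_one, single_dotProduct, single_dotProduct] at this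
    simpa using this
  have hsum : ∀ c : ℝ, (Pi.single i 1 + c • Pi.single j 1 : κ → ℝ) ⬝ᵥ
      (A *ᵥ (Pi.single i 1 + c • Pi.single j 1)) = A i i + 2 * c * A i j + c ^ 2 * A j j := by
    intro c
    have h2 : A j i = A i j := hs.apply _ _
    rw [Matrix.mulVec_add, Matrix.mulVec_smul, Matrix.mulVec_single_one, Matrix.mulVec_single_one]
    simp only [add_dotProduct, dotProduct_add, smul_dotProduct, dotProduct_smul,
      single_dotProduct, smul_eq_mul, one_mul, Matrix.col_apply, h2]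
    ring
  have h3 := hsum 1
  have h4 := hsum (-1)
  have h5 := h0 (Pi.single i 1 + (1 : ℝ) • Pi.single j 1)
  have h6 := h0 (Pi.single i 1 + (-1 : ℝ) • Pi.single j 1)
  rw [h3] at h5
  rw [h4] at h6
  have h7 := hd i
  have h8 := hd j
  rw [abs_le]
  constructor <;> linarith

theorem values_card (κ : Type) [Fintype κ] : ∃ C : ℝ, 0 ≤ C ∧
    ∀ (L : ℝ), 1 ≤ L → ∀ (N : ℕ) (Q : Matrix κ κ ℝ → Matrix κ κ ℝ),
      (∀ A, PdM A → ∃ S : Finset (Matrix κ κ ℝ), S.card ≤ N ∧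
        ∀ A', PdM A' → NearM L A A' → Q A' ∈ S) →
      ∀ K : ℝ, 0 ≤ K → ∃ S : Finset (Matrix κ κ ℝ), (S.card : ℝ) ≤ N * Real.exp (C * (K + 1)) ∧
        ∀ A : Matrix κ κ ℝ, A.IsSymm → (∀ x : κ → ℝ, x ⬝ᵥ x ≤ x ⬝ᵥ (A *ᵥ x)) →
          (∀ x : κ → ℝ, x ⬝ᵥ (A *ᵥ x) ≤ Real.exp K * (x ⬝ᵥ x)) → Q A ∈ S := by
  classical
  set m : ℝ := (Fintype.card κ : ℝ) + 1 with hm
  have hm0 : (1 : ℝ) ≤ m := by
    have : (0 : ℝ) ≤ (Fintype.card κ : ℝ) := Nat.cast_nonneg _
    linarith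
  have hmp : (0 : ℝ) < m := by linarith
  refine ⟨(Fintype.card κ : ℝ) ^ 2 * (2 * m + 3), by positivity, fun L hL N Q hQ K hK => ?_⟩
  let cell : Matrix κ κ ℝ → (κ × κ → ℤ) := fun A p => ⌊A p.1 p.2 * m⌋
  have hgood : ∀ A : Matrix κ κ ℝ, A.IsSymm → (∀ x : κ → ℝ, x ⬝ᵥ x ≤ x ⬝ᵥ (A *ᵥ x)) → PdM A :=
    fun A hs h => ⟨hs, fun x hx => (self_pos hx).trans_le (h x)⟩
  have hrep : ∀ c : κ × κ → ℤ, ∃ S : Finset (Matrix κ κ ℝ), S.card ≤ N ∧
      ∀ A : Matrix κ κ ℝ, A.IsSymm → (∀ x : κ → ℝ, x ⬝ᵥ x ≤ x ⬝ᵥ (A *ᵥ x)) → cell A = c →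
        Q A ∈ S := by
    intro c
    by_cases h : ∃ A0 : Matrix κ κ ℝ, A0.IsSymm ∧ (∀ x : κ → ℝ, x ⬝ᵥ x ≤ x ⬝ᵥ (A0 *ᵥ x)) ∧
        cell A0 = c
    · obtain ⟨A0, h1, h2, h3⟩ := h
      obtain ⟨S, hS, hS2⟩ := hQ A0 (hgood A0 h1 h2)
      refine ⟨S, hS, fun A hA1 hA2 hA3 => hS2 A (hgood A hA1 hA2) ?_⟩
      have hclose : ∀ i j, |A i j - A0 i j| ≤ 1 / m := by
        intro i j
        have h4 := congrFun (hA3.trans h3.symm) (i, j)
        simp only [cell] at h4
        have h5 := Int.floor_le (A i j * m)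
        have h6 := Int.lt_floor_add_one (A i j * m)
        have h7 := Int.floor_le (A0 i j * m)
        have h8 := Int.lt_floor_add_one (A0 i j * m)
        rw [h4] at h5 h6
        have h9 : |(A i j - A0 i j) * m| ≤ 1 := by
          rw [sub_mul, abs_le]
          constructor <;> linarith
        rw [abs_mul, abs_of_pos hmp] at h9
        rwa [le_div_iff₀ hmp]
      have hδ : 1 / m * Fintype.card κ ≤ 1 := by
        rw [one_div, inv_mul_le_iff₀ hmp]
        linarith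
      have hexp : (2 : ℝ) ≤ Real.exp L := by
        have := Real.add_one_le_exp L
        linarith
      constructor
      · intro x
        have h9 := dv_close (fun i j => by rw [abs_sub_comm]; exact hclose i j) hδ x
        have h10 := hA2 x
        have h11 := self_nonneg' x
        have h12 : x ⬝ᵥ (A0 *ᵥ x) ≤ 2 * (x ⬝ᵥ (A *ᵥ x)) := by linarith
        exact h12.trans (mul_le_mul_of_nonneg_right hexp (by linarith))
      · intro x
        have h9 := dv_close hclose hδ x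
        have h10 := h2 x
        have h11 := self_nonneg' x
        have h12 : x ⬝ᵥ (A *ᵥ x) ≤ 2 * (x ⬝ᵥ (A0 *ᵥ x)) := by linarith
        exact h12.trans (mul_le_mul_of_nonneg_right hexp (by linarith))
    · refine ⟨∅, by simp, fun A h1 h2 h3 => absurd ⟨A, h1, h2, h3⟩ h⟩
  choose S hS hS2 using hrep
  let R : ℕ := ⌈Real.exp K * m⌉₊
  let I : Finset (κ × κ → ℤ) := Fintype.piFinset fun _ => Finset.Icc (-(R : ℤ) - 1) (R : ℤ)
  refine ⟨I.biUnion S, ?_, fun A h1 h2 h3 => ?_⟩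
  · have h1 : (I.biUnion S).card ≤ I.card * N := by
      refine Finset.card_biUnion_le.trans ?_
      refine (Finset.sum_le_sum fun c _ => hS c).trans ?_
      rw [Finset.sum_const, smul_eq_mul]
    have h2 : I.card = (2 * R + 2) ^ (Fintype.card κ ^ 2) := by
      simp only [I, Fintype.card_piFinset, Int.card_Icc, Finset.prod_const, Finset.card_univ,
        Fintype.card_prod]
      congr 1
      · omega
      · ring
    have h3 : ((2 * R + 2 : ℕ) : ℝ) ≤ Real.exp ((2 * m + 3) * (K + 1)) := by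
      have h4 : (R : ℝ) < Real.exp K * m + 1 := Nat.ceil_lt_add_one (by positivity)
      have h5 : (1 : ℝ) ≤ Real.exp K := Real.one_le_exp hK
      push_cast
      calc (2 : ℝ) * R + 2 ≤ 2 * (Real.exp K * m + 1) + 2 := by linarith
        _ ≤ Real.exp K * (2 * m + 4) := by nlinarith
        _ ≤ Real.exp K * Real.exp (2 * m + 3) := by
            refine mul_le_mul_of_nonneg_left ?_ (Real.exp_pos K).le
            have := Real.add_one_le_exp (2 * m + 3)
            linarith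
        _ = Real.exp (K + (2 * m + 3)) := (Real.exp_add _ _).symm
        _ ≤ Real.exp ((2 * m + 3) * (K + 1)) := Real.exp_le_exp.2 (by nlinarith)
    calc ((I.biUnion S).card : ℝ) ≤ ((I.card * N : ℕ) : ℝ) := by exact_mod_cast h1
      _ = N * ((2 * R + 2 : ℕ) : ℝ) ^ (Fintype.card κ ^ 2) := by
          rw [h2]
          push_cast
          ring
      _ ≤ N * (Real.exp ((2 * m + 3) * (K + 1))) ^ (Fintype.card κ ^ 2) :=
          mul_le_mul_of_nonneg_left (pow_le_pow_left₀ (Nat.cast_nonneg _) h3 _) (Nat.cast_nonneg _)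
      _ = N * Real.exp ((Fintype.card κ : ℝ) ^ 2 * (2 * m + 3) * (K + 1)) := by
          rw [← Real.exp_nat_mul]
          congr 2
          push_cast
          ring
  · rw [Finset.mem_biUnion]
    refine ⟨cell A, ?_, hS2 _ A h1 h2 rfl⟩
    simp only [I, Fintype.mem_piFinset, Finset.mem_Icc]
    intro p
    have h4 : |A p.1 p.2| ≤ Real.exp K :=
      entry_le h1 (fun x => (self_nonneg' x).trans (h2 x)) h3 p.1 p.2
    have h5 := abs_le.1 h4
    have h6 : Real.exp K * m ≤ (R : ℝ) := Nat.le_ceil _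
    simp only [cell]
    constructor
    · rw [Int.le_floor]
      push_cast
      nlinarith [mul_le_mul_of_nonneg_right h5.1 hmp.le]
    · rw [← Int.lt_add_one_iff, Int.floor_lt]
      push_cast
      nlinarith [mul_le_mul_of_nonneg_right h5.2 hmp.le]

end Pool.Agent.Helper95.LF
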