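import Pool.Agent.Helper95.LF.RoundMat

namespace Pool.Agent.Helper95.LF

open Finset Matrix

variable {κ : Type} [Fintype κ]

theorem dv_conj {κ' : Type} [Fintype κ'] (C : Matrix κ' κ ℝ) (T : Matrix κ' κ' ℝ) (x : κ → ℝ) :
    x ⬝ᵥ ((C.transpose * T * C) *ᵥ x) = (C *ᵥ x) ⬝ᵥ (T *ᵥ (C *ᵥ x)) := by
  rw [Matrix.mul_assoc, ← Matrix.mulVec_mulVec, ← Matrix.mulVec_mulVec,
    Matrix.dotProduct_mulVec, Matrix.vecMul_transpose]

theorem self_pos {y : κ → ℝ} (hy : y ≠ 0) : 0 < y ⬝ᵥ y := by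
  have h1 : ∃ i, y i ≠ 0 := by
    by_contra h
    push Not at h
    exact hy (funext h)
  obtain ⟨i, hi⟩ := h1
  have h2 : 0 < y i * y i := mul_self_pos.2 hi
  exact h2.trans_le (Finset.single_le_sum (f := fun i => y i * y i)
    (fun j _ => mul_self_nonneg _) (Finset.mem_univ i))

theorem self_nonneg' (y : κ → ℝ) : 0 ≤ y ⬝ᵥ y :=
  Finset.sum_nonneg fun i _ => mul_self_nonneg (y i)

theorem exists_diag [DecidableEq κ] (T : Matrix κ κ ℝ) (hT : T.IsSymm) :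
    ∃ (U : Matrix κ κ ℝ) (μ : κ → ℝ), U * U.transpose = 1 ∧ U.transpose * U = 1 ∧
      T = U * Matrix.diagonal μ * U.transpose := by
  have hH : T.IsHermitian := by
    unfold Matrix.IsHermitian
    rw [Matrix.conjTranspose_eq_transpose_of_trivial]
    exact hT
  have hs : ∀ N : Matrix κ κ ℝ, star N = N.transpose := fun N => by
    rw [Matrix.star_eq_conjTranspose, Matrix.conjTranspose_eq_transpose_of_trivial]
  refine ⟨(hH.eigenvectorUnitary : Matrix κ κ ℝ), hH.eigenvalues, ?_, ?_, ?_⟩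
  · rw [← hs]
    exact Unitary.coe_mul_star_self hH.eigenvectorUnitary
  · rw [← hs]
    exact Unitary.coe_star_mul_self hH.eigenvectorUnitary
  · have h := hH.spectral_theorem
    rw [Unitary.conjStarAlgAut_apply, hs] at h
    exact h

theorem det_ge_one_add [DecidableEq κ] (T : Matrix κ κ ℝ) (hT : T.IsSymm)
    (h1 : ∀ x : κ → ℝ, x ⬝ᵥ x ≤ x ⬝ᵥ (T *ᵥ x)) (y : κ → ℝ) (hy : y ≠ 0) (c : ℝ)
    (hc : c * (y ⬝ᵥ y) ≤ y ⬝ᵥ (T *ᵥ y)) : c ≤ T.det := by
  obtain ⟨U, μ, hU1, hU2, hTU⟩ := exists_diag T hT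
  have hdet : T.det = ∏ i, μ i := by
    rw [hTU, Matrix.det_mul, Matrix.det_mul, Matrix.det_diagonal]
    have : U.det * U.transpose.det = 1 := by
      rw [← Matrix.det_mul, hU1, Matrix.det_one]
    calc U.det * (∏ i, μ i) * U.transpose.det = (U.det * U.transpose.det) * ∏ i, μ i := by ring
      _ = ∏ i, μ i := by rw [this, one_mul]
  have hval : ∀ z : κ → ℝ, (U *ᵥ z) ⬝ᵥ (T *ᵥ (U *ᵥ z)) = ∑ i, μ i * z i ^ 2 := by
    intro z
    rw [← dv_conj, hTU]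
    have : U.transpose * (U * Matrix.diagonal μ * U.transpose) * U = Matrix.diagonal μ := by
      calc U.transpose * (U * Matrix.diagonal μ * U.transpose) * U =
          (U.transpose * U) * Matrix.diagonal μ * (U.transpose * U) := by
            simp only [Matrix.mul_assoc]
        _ = Matrix.diagonal μ := by rw [hU2, Matrix.one_mul, Matrix.mul_one]
    rw [this]
    simp only [dotProduct, Matrix.mulVec_diagonal]
    refine Finset.sum_congr rfl fun i _ => ?_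
    ring
  have hnorm : ∀ z : κ → ℝ, (U *ᵥ z) ⬝ᵥ (U *ᵥ z) = ∑ i, z i ^ 2 := by
    intro z
    have h2 := dv_conj U (1 : Matrix κ κ ℝ) z
    rw [Matrix.mul_one, hU2, Matrix.one_mulVec, Matrix.one_mulVec] at h2
    rw [← h2]
    refine Finset.sum_congr rfl fun i _ => ?_
    ring
  have hμ : ∀ i, 1 ≤ μ i := by
    intro i
    have h2 := h1 (U *ᵥ (Pi.single i 1))
    rw [hval, hnorm] at h2
    rw [Finset.sum_eq_single i, Finset.sum_eq_single i] at h2
    · simpa using h2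
    · intro j _ hj
      simp [hj]
    · intro h
      exact absurd (Finset.mem_univ i) h
    · intro j _ hj
      simp [hj]
    · intro h
      exact absurd (Finset.mem_univ i) h
  set z := U.transpose *ᵥ y with hz
  have hyz : y = U *ᵥ z := by
    rw [hz, Matrix.mulVec_mulVec, hU1, Matrix.one_mulVec]
  have hex : ∃ i, c ≤ μ i := by
    by_contra hne
    push Not at hne
    rw [hyz, hval, hnorm] at hc
    have h3 : ∑ i, μ i * z i ^ 2 < c * ∑ i, z i ^ 2 := by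
      rw [Finset.mul_sum]
      have h4 : ∃ i, z i ≠ 0 := by
        by_contra h
        push Not at h
        apply hy
        rw [hyz, funext h]
        exact Matrix.mulVec_zero U
      obtain ⟨i, hi⟩ := h4
      refine Finset.sum_lt_sum (fun j _ => mul_le_mul_of_nonneg_right (hne j).le (sq_nonneg _))
        ⟨i, Finset.mem_univ i, mul_lt_mul_of_pos_right (hne i) (by positivity)⟩
    linarith
  obtain ⟨i, hi⟩ := hex
  rw [hdet]
  refine hi.trans ?_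
  rw [← Finset.mul_prod_erase Finset.univ μ (Finset.mem_univ i)]
  have h5 : 1 ≤ ∏ j ∈ Finset.univ.erase i, μ j := by
    have := Finset.prod_le_prod (s := Finset.univ.erase i) (f := fun _ => (1 : ℝ)) (g := μ)
      (fun _ _ => zero_le_one) (fun j _ => hμ j)
    rwa [Finset.prod_const_one] at this
  have h6 := hμ i
  nlinarith

theorem exists_factor [DecidableEq κ] (A : Matrix κ κ ℝ) (hA : PdM A) :
    ∃ C : Matrix κ κ ℝ, A = C.transpose * C ∧ C.det ≠ 0 := by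
  obtain ⟨U, μ, hU1, hU2, hAU⟩ := exists_diag A hA.1
  have hval : ∀ z : κ → ℝ, (U *ᵥ z) ⬝ᵥ (A *ᵥ (U *ᵥ z)) = ∑ i, μ i * z i ^ 2 := by
    intro z
    rw [← dv_conj, hAU]
    have : U.transpose * (U * Matrix.diagonal μ * U.transpose) * U = Matrix.diagonal μ := by
      calc U.transpose * (U * Matrix.diagonal μ * U.transpose) * U =
          (U.transpose * U) * Matrix.diagonal μ * (U.transpose * U) := by
            simp only [Matrix.mul_assoc]
        _ = Matrix.diagonal μ := by rw [hU2, Matrix.one_mul, Matrix.mul_one]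
    rw [this]
    simp only [dotProduct, Matrix.mulVec_diagonal]
    refine Finset.sum_congr rfl fun i _ => ?_
    ring
  have hμ : ∀ i, 0 < μ i := by
    intro i
    have hne : U *ᵥ (Pi.single i (1 : ℝ)) ≠ 0 := by
      intro h0
      have h1 : U.transpose *ᵥ (U *ᵥ (Pi.single i (1 : ℝ))) = Pi.single i 1 := by
        rw [Matrix.mulVec_mulVec, hU2, Matrix.one_mulVec]
      rw [h0, Matrix.mulVec_zero] at h1
      have := congrFun h1 i
      simp at this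
    have h2 := hA.2 _ hne
    rw [hval, Finset.sum_eq_single i] at h2
    · simpa using h2
    · intro j _ hj
      simp [hj]
    · intro h
      exact absurd (Finset.mem_univ i) h
  refine ⟨Matrix.diagonal (fun i => Real.sqrt (μ i)) * U.transpose, ?_, ?_⟩
  · rw [Matrix.transpose_mul, Matrix.transpose_transpose, Matrix.diagonal_transpose]
    have : Matrix.diagonal μ = Matrix.diagonal (fun i => Real.sqrt (μ i)) *
        Matrix.diagonal (fun i => Real.sqrt (μ i)) := by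
      rw [Matrix.diagonal_mul_diagonal]
      congr 1
      funext i
      exact (Real.mul_self_sqrt (hμ i).le).symm
    rw [hAU, this]
    simp only [Matrix.mul_assoc]
  · rw [Matrix.det_mul, Matrix.det_diagonal]
    refine mul_ne_zero (Finset.prod_ne_zero_iff.2 fun i _ => (Real.sqrt_pos.2 (hμ i)).ne') ?_
    intro h0
    have h1 := congrArg Matrix.det hU2
    rw [Matrix.det_mul, h0, zero_mul, Matrix.det_one] at h1
    exact zero_ne_one h1

theorem PdM.det_pos [DecidableEq κ] {A : Matrix κ κ ℝ} (hA : PdM A) : 0 < A.det := by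
  obtain ⟨C, hC, hd⟩ := exists_factor A hA
  rw [hC, Matrix.det_mul, Matrix.det_transpose]
  exact mul_self_pos.2 hd

theorem PdM.nonneg {A : Matrix κ κ ℝ} (hA : PdM A) (x : κ → ℝ) : 0 ≤ x ⬝ᵥ (A *ᵥ x) := by
  by_cases hx : x = 0
  · simp [hx]
  · exact (hA.2 x hx).le

theorem det_gain [DecidableEq κ] {A B : Matrix κ κ ℝ} (hA : PdM A) (hB : B.IsSymm)
    (h : ∀ x : κ → ℝ, x ⬝ᵥ (A *ᵥ x) ≤ x ⬝ᵥ (B *ᵥ x)) {y : κ → ℝ} (hy : y ≠ 0) {c : ℝ}
    (hc : c * (y ⬝ᵥ (A *ᵥ y)) ≤ y ⬝ᵥ (B *ᵥ y)) : c * A.det ≤ B.det := by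
  obtain ⟨C, hC, hd⟩ := exists_factor A hA
  have hu : IsUnit C.det := isUnit_iff_ne_zero.2 hd
  have hCC : C * C⁻¹ = 1 := Matrix.mul_nonsing_inv C hu
  have hCC' : C⁻¹ * C = 1 := Matrix.nonsing_inv_mul C hu
  have hAv : ∀ x : κ → ℝ, x ⬝ᵥ (A *ᵥ x) = (C *ᵥ x) ⬝ᵥ (C *ᵥ x) := by
    intro x
    have h1 := dv_conj C (1 : Matrix κ κ ℝ) x
    rw [Matrix.mul_one, ← hC, Matrix.one_mulVec] at h1
    exact h1
  have hinv : ∀ x : κ → ℝ, C *ᵥ (C⁻¹ *ᵥ x) = x := by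
    intro x
    rw [Matrix.mulVec_mulVec, hCC, Matrix.one_mulVec]
  have hinv' : ∀ x : κ → ℝ, C⁻¹ *ᵥ (C *ᵥ x) = x := by
    intro x
    rw [Matrix.mulVec_mulVec, hCC', Matrix.one_mulVec]
  set T := (C⁻¹).transpose * B * C⁻¹ with hT
  have hTs : T.IsSymm := by
    unfold Matrix.IsSymm
    rw [hT, Matrix.transpose_mul, Matrix.transpose_mul, Matrix.transpose_transpose, hB.eq,
      Matrix.mul_assoc]
  have hT1 : ∀ x : κ → ℝ, x ⬝ᵥ x ≤ x ⬝ᵥ (T *ᵥ x) := by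
    intro x
    rw [hT, dv_conj]
    have h1 := h (C⁻¹ *ᵥ x)
    rw [hAv, hinv] at h1
    exact h1
  have hy' : C *ᵥ y ≠ 0 := by
    intro h0
    apply hy
    rw [← hinv' y, h0, Matrix.mulVec_zero]
  have hTc : c * ((C *ᵥ y) ⬝ᵥ (C *ᵥ y)) ≤ (C *ᵥ y) ⬝ᵥ (T *ᵥ (C *ᵥ y)) := by
    rw [hT, dv_conj, hinv', ← hAv]
    exact hc
  have h2 := det_ge_one_add T hTs hT1 _ hy' c hTc
  have h3 : T.det * A.det = B.det := by
    have h4 : C⁻¹.det * C.det = 1 := by
      rw [← Matrix.det_mul, hCC', Matrix.det_one]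
    rw [hT, hC, Matrix.det_mul, Matrix.det_mul, Matrix.det_mul, Matrix.det_transpose,
      Matrix.det_transpose]
    calc C⁻¹.det * B.det * C⁻¹.det * (C.det * C.det) =
        B.det * (C⁻¹.det * C.det) * (C⁻¹.det * C.det) := by ring
      _ = B.det := by rw [h4, mul_one, mul_one]
  rw [← h3]
  exact mul_le_mul_of_nonneg_right h2 hA.det_pos.le

theorem det_mono [DecidableEq κ] {A B : Matrix κ κ ℝ} (hA : PdM A) (hB : B.IsSymm)
    (h : ∀ x : κ → ℝ, x ⬝ᵥ (A *ᵥ x) ≤ x ⬝ᵥ (B *ᵥ x)) : A.det ≤ B.det := by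
  rcases isEmpty_or_nonempty κ with hκ | ⟨⟨i⟩⟩
  · rw [Matrix.det_isEmpty, Matrix.det_isEmpty]
  · have hy : (fun _ : κ => (1 : ℝ)) ≠ 0 := fun h0 => one_ne_zero (congrFun h0 i)
    have h1 := det_gain hA hB h hy (c := 1) (by rw [one_mul]; exact h _)
    rwa [one_mul] at h1

theorem le_of_det_le [DecidableEq κ] {A B : Matrix κ κ ℝ} (hA : PdM A) (hB : B.IsSymm)
    (h : ∀ x : κ → ℝ, x ⬝ᵥ (A *ᵥ x) ≤ x ⬝ᵥ (B *ᵥ x)) {R : ℝ} (hR : B.det ≤ R * A.det)
    (y : κ → ℝ) : y ⬝ᵥ (B *ᵥ y) ≤ R * (y ⬝ᵥ (A *ᵥ y)) := by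
  by_cases hy : y = 0
  · simp [hy]
  · have hp := hA.2 y hy
    have h1 := det_gain hA hB h hy (c := (y ⬝ᵥ (B *ᵥ y)) / (y ⬝ᵥ (A *ᵥ y)))
      (le_of_eq (div_mul_cancel₀ _ hp.ne'))
    have h2 := le_of_mul_le_mul_right (h1.trans hR) hA.det_pos
    rwa [div_le_iff₀ hp] at h2

theorem dv_smul (c : ℝ) (A : Matrix κ κ ℝ) (x : κ → ℝ) :
    x ⬝ᵥ ((c • A) *ᵥ x) = c * (x ⬝ᵥ (A *ᵥ x)) := by
  rw [Matrix.smul_mulVec, dotProduct_smul, smul_eq_mul]

theorem dv_add (A B : Matrix κ κ ℝ) (x : κ → ℝ) :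
    x ⬝ᵥ ((A + B) *ᵥ x) = x ⬝ᵥ (A *ᵥ x) + x ⬝ᵥ (B *ᵥ x) := by
  rw [Matrix.add_mulVec, dotProduct_add]

theorem PdM.smul {A : Matrix κ κ ℝ} (hA : PdM A) {c : ℝ} (hc : 0 < c) : PdM (c • A) := by
  refine ⟨hA.1.smul c, fun x hx => ?_⟩
  rw [dv_smul]
  exact mul_pos hc (hA.2 x hx)

theorem PdM.add {A B : Matrix κ κ ℝ} (hA : PdM A) (hB : B.IsSymm)
    (h : ∀ x : κ → ℝ, 0 ≤ x ⬝ᵥ (B *ᵥ x)) : PdM (A + B) := by
  refine ⟨hA.1.add hB, fun x hx => ?_⟩
  rw [dv_add]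
  exact add_pos_of_pos_of_nonneg (hA.2 x hx) (h x)

theorem PdM.one [DecidableEq κ] : PdM (1 : Matrix κ κ ℝ) := by
  refine ⟨Matrix.isSymm_one, fun x hx => ?_⟩
  rw [Matrix.one_mulVec]
  exact self_pos hx

theorem det_le_pow [DecidableEq κ] {A B : Matrix κ κ ℝ} (hA : PdM A) (hB : PdM B) {K : ℝ}
    (hK : 0 < K) (h : ∀ x : κ → ℝ, x ⬝ᵥ (B *ᵥ x) ≤ K * (x ⬝ᵥ (A *ᵥ x))) :
    B.det ≤ K ^ Fintype.card κ * A.det := by
  rw [← Matrix.det_smul]
  exact det_mono hB (hA.smul hK).1 fun x => by rw [dv_smul]; exact h x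

theorem one_le_det [DecidableEq κ] {A : Matrix κ κ ℝ} (hA : A.IsSymm)
    (h : ∀ x : κ → ℝ, x ⬝ᵥ x ≤ x ⬝ᵥ (A *ᵥ x)) : 1 ≤ A.det := by
  have h1 := det_mono PdM.one hA fun x => by rw [Matrix.one_mulVec]; exact h x
  rwa [Matrix.det_one] at h1

theorem det_le_pow_one [DecidableEq κ] {A : Matrix κ κ ℝ} (hA : PdM A) {K : ℝ}
    (hK : 0 < K) (h : ∀ x : κ → ℝ, x ⬝ᵥ (A *ᵥ x) ≤ K * (x ⬝ᵥ x)) :
    A.det ≤ K ^ Fintype.card κ := by
  have h1 := det_le_pow PdM.one hA hK fun x => by rw [Matrix.one_mulVec]; exact h x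
  rwa [Matrix.det_one, mul_one] at h1

theorem logdet_near [DecidableEq κ] {A B : Matrix κ κ ℝ} (hA : PdM A) (hB : PdM B) {L : ℝ}
    (h : NearM L A B) : |Real.log A.det - Real.log B.det| ≤ Fintype.card κ * L := by
  have h1 : ∀ {A B : Matrix κ κ ℝ}, PdM A → PdM B →
      (∀ x : κ → ℝ, x ⬝ᵥ (A *ᵥ x) ≤ Real.exp L * (x ⬝ᵥ (B *ᵥ x))) →
      Real.log A.det - Real.log B.det ≤ Fintype.card κ * L := by
    intro A B hA hB h
    have h2 := det_le_pow hB hA (Real.exp_pos L) h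
    have h3 := Real.log_le_log hA.det_pos h2
    rw [Real.log_mul (pow_pos (Real.exp_pos L) _).ne' hB.det_pos.ne', Real.log_pow,
      Real.log_exp] at h3
    linarith
  rw [abs_le]
  have h4 := h1 hA hB h.1
  have h5 := h1 hB hA h.2
  constructor <;> linarith

theorem near_of_logdet [DecidableEq κ] {A B : Matrix κ κ ℝ} (hA : PdM A) (hB : B.IsSymm)
    (hB0 : ∀ x : κ → ℝ, 0 ≤ x ⬝ᵥ (B *ᵥ x)) {L : ℝ}
    (h : Real.log (A + B).det ≤ Real.log A.det + L) (x : κ → ℝ) :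
    x ⬝ᵥ (B *ᵥ x) ≤ Real.exp L * (x ⬝ᵥ (A *ᵥ x)) := by
  have hAB := hA.add hB hB0
  have h1 : (A + B).det ≤ Real.exp L * A.det := by
    have h2 : Real.log (A + B).det ≤ Real.log (Real.exp L * A.det) := by
      rw [Real.log_mul (Real.exp_pos L).ne' hA.det_pos.ne', Real.log_exp]
      linarith
    exact (Real.log_le_log_iff hAB.det_pos (mul_pos (Real.exp_pos L) hA.det_pos)).1 h2
  have h3 := le_of_det_le hA hAB.1 (fun x => by rw [dv_add]; linarith [hB0 x]) h1 x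
  rw [dv_add] at h3
  linarith [hA.nonneg x]

end Pool.Agent.Helper95.LF
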