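import Pool.Agent.Helper95.LF.Round

namespace Pool.Agent.Helper95.LF

open Finset

theorem round_fun (M : ℕ) : ∃ C : ℝ, 1 ≤ C ∧ ∃ ι : Type, Nonempty (Fintype ι) ∧
    ∀ L : ℝ, 1 ≤ L → ∃ Q : ((Fin M → ℝ) → ℝ) → ((Fin M → ℝ) → ℝ),
      (∀ q, Pd q → Pd (Q q) ∧ Near (C * L) q (Q q)) ∧
      ∀ q, Pd q → ∃ f : ι → ((Fin M → ℝ) → ℝ), ∀ q', Pd q' → Near L q q' → ∃ i, Q q' = f i := by
  induction M with
  | zero =>
    refine ⟨1, le_rfl, Unit, ⟨inferInstance⟩, fun L hL => ⟨fun q => q, fun q hq => ⟨hq, ?_, ?_⟩,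
      fun q hq => ⟨fun _ => fun _ => 0, fun q' hq' _ => ⟨(), ?_⟩⟩⟩⟩
    · intro x
      have hx : x = 0 := Subsingleton.elim _ _
      change q x ≤ Real.exp (1 * L) * q x
      rw [hx, hq.zero, mul_zero]
    · intro x
      have hx : x = 0 := Subsingleton.elim _ _
      change q x ≤ Real.exp (1 * L) * q x
      rw [hx, hq.zero, mul_zero]
    · funext x
      have hx : x = 0 := Subsingleton.elim _ _
      change q' x = 0
      rw [hx, hq'.zero]
  | succ M ih =>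
    obtain ⟨C, hC, ι, ⟨hι⟩, h⟩ := ih
    have hM0 : (0 : ℝ) ≤ M := Nat.cast_nonneg M
    refine ⟨2 * C + 2 * M + 6, by linarith, ι × Fin 3 × (Fin M → Fin 3), ⟨inferInstance⟩,
      fun L hL => ?_⟩
    obtain ⟨Q, h1, h2⟩ := h L hL
    exact round_step M C hC ι L hL Q h1 h2

def PdM {ι : Type} [Fintype ι] (A : Matrix ι ι ℝ) : Prop :=
  A.IsSymm ∧ ∀ x : ι → ℝ, x ≠ 0 → 0 < dotProduct x (A.mulVec x)

def NearM {ι : Type} [Fintype ι] (L : ℝ) (A A' : Matrix ι ι ℝ) : Prop :=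
  (∀ x : ι → ℝ, dotProduct x (A.mulVec x) ≤ Real.exp L * dotProduct x (A'.mulVec x)) ∧
    ∀ x : ι → ℝ, dotProduct x (A'.mulVec x) ≤ Real.exp L * dotProduct x (A.mulVec x)

theorem round_fin (M : ℕ) : ∃ (C : ℝ) (N : ℕ), 1 ≤ C ∧ ∀ L : ℝ, 1 ≤ L →
    ∃ Q : Matrix (Fin M) (Fin M) ℝ → Matrix (Fin M) (Fin M) ℝ,
      (∀ A, PdM A → PdM (Q A) ∧ NearM (C * L) A (Q A)) ∧
      ∀ A, PdM A → ∃ S : Finset (Matrix (Fin M) (Fin M) ℝ), S.card ≤ N ∧
        ∀ A', PdM A' → NearM L A A' → Q A' ∈ S := by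
  classical
  obtain ⟨C, hC, ι, ⟨hι⟩, h⟩ := round_fun M
  refine ⟨C, Fintype.card ι, hC, fun L hL => ?_⟩
  obtain ⟨Q, h1, h2⟩ := h L hL
  have hmat : ∀ q : (Fin M → ℝ) → ℝ, ∃ A : Matrix (Fin M) (Fin M) ℝ,
      Pd q → A.IsSymm ∧ ∀ x, q x = dotProduct x (A.mulVec x) := by
    intro q
    by_cases hq : Pd q
    · obtain ⟨A, hA⟩ := hq.1
      exact ⟨A, fun _ => hA⟩
    · exact ⟨0, fun h' => absurd h' hq⟩
  choose mat hmat using hmat
  let qv : Matrix (Fin M) (Fin M) ℝ → ((Fin M → ℝ) → ℝ) := fun A x => dotProduct x (A.mulVec x)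
  have hqv : ∀ A, PdM A → Pd (qv A) := fun A hA => ⟨⟨A, hA.1, fun _ => rfl⟩, hA.2⟩
  have hmm : ∀ q, Pd q → ∀ x, dotProduct x ((mat q).mulVec x) = q x :=
    fun q hq x => ((hmat q hq).2 x).symm
  refine ⟨fun A => mat (Q (qv A)), fun A hA => ?_, fun A hA => ?_⟩
  · obtain ⟨hp, hn1, hn2⟩ := h1 _ (hqv A hA)
    refine ⟨⟨(hmat _ hp).1, fun x hx => ?_⟩, fun x => ?_, fun x => ?_⟩
    · rw [hmm _ hp]
      exact hp.2 x hx
    · rw [hmm _ hp]
      exact hn1 x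
    · rw [hmm _ hp]
      exact hn2 x
  · obtain ⟨f, hf⟩ := h2 _ (hqv A hA)
    refine ⟨Finset.univ.image fun i => mat (f i), Finset.card_image_le, fun A' hA' hn => ?_⟩
    obtain ⟨i, hi⟩ := hf _ (hqv A' hA') ⟨hn.1, hn.2⟩
    rw [Finset.mem_image]
    exact ⟨i, Finset.mem_univ i, (congrArg mat hi).symm⟩

theorem round_mat (κ : Type) [Fintype κ] : ∃ (C : ℝ) (N : ℕ), 1 ≤ C ∧ ∀ L : ℝ, 1 ≤ L →
    ∃ Q : Matrix κ κ ℝ → Matrix κ κ ℝ,
      (∀ A, PdM A → PdM (Q A) ∧ NearM (C * L) A (Q A)) ∧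
      ∀ A, PdM A → ∃ S : Finset (Matrix κ κ ℝ), S.card ≤ N ∧
        ∀ A', PdM A' → NearM L A A' → Q A' ∈ S := by
  classical
  obtain ⟨C, N, hC, h⟩ := round_fin (Fintype.card κ)
  refine ⟨C, N, hC, fun L hL => ?_⟩
  obtain ⟨Q, h1, h2⟩ := h L hL
  let e : κ ≃ Fin (Fintype.card κ) := Fintype.equivFin κ
  have hv : ∀ (A : Matrix κ κ ℝ) (x : Fin (Fintype.card κ) → ℝ),
      dotProduct x ((A.submatrix e.symm e.symm).mulVec x) =
        dotProduct (x ∘ e) (A.mulVec (x ∘ e)) := by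
    intro A x
    have h3 : (A.submatrix e.symm e.symm).mulVec x = (A.mulVec (x ∘ e)) ∘ e.symm := by
      rw [Matrix.submatrix_mulVec_equiv]
      rfl
    rw [h3]
    simp only [dotProduct, Function.comp_apply]
    refine (Equiv.sum_comp e (fun i => x i * A.mulVec (x ∘ e) (e.symm i))).symm.trans ?_
    refine Finset.sum_congr rfl fun i _ => ?_
    rw [Equiv.symm_apply_apply]
  have hv' : ∀ (B : Matrix (Fin (Fintype.card κ)) (Fin (Fintype.card κ)) ℝ) (x : κ → ℝ),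
      dotProduct x ((B.submatrix e e).mulVec x) =
        dotProduct (x ∘ e.symm) (B.mulVec (x ∘ e.symm)) := by
    intro B x
    have h3 := hv (B.submatrix e e) (x ∘ e.symm)
    have h4 : (B.submatrix e e).submatrix e.symm e.symm = B := by
      rw [Matrix.submatrix_submatrix]
      ext i j
      simp
    have h5 : (x ∘ e.symm) ∘ e = x := by
      funext i
      simp
    rw [h4, h5] at h3
    exact h3.symm
  have hP : ∀ A : Matrix κ κ ℝ, PdM A → PdM (A.submatrix e.symm e.symm) := by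
    intro A hA
    refine ⟨hA.1.submatrix _, fun x hx => ?_⟩
    rw [hv]
    refine hA.2 _ fun h0 => hx ?_
    funext i
    have := congrFun h0 (e.symm i)
    simpa using this
  refine ⟨fun A => (Q (A.submatrix e.symm e.symm)).submatrix e e, fun A hA => ?_, fun A hA => ?_⟩
  · obtain ⟨hp, hn1, hn2⟩ := h1 _ (hP A hA)
    have hA' : ∀ x : κ → ℝ, dotProduct x (A.mulVec x) = dotProduct (x ∘ e.symm)
        ((A.submatrix e.symm e.symm).mulVec (x ∘ e.symm)) := by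
      intro x
      rw [hv]
      have : (x ∘ e.symm) ∘ e = x := by
        funext i
        simp
      rw [this]
    refine ⟨⟨hp.1.submatrix _, fun x hx => ?_⟩, fun x => ?_, fun x => ?_⟩
    · rw [hv']
      refine hp.2 _ fun h0 => hx ?_
      funext i
      have := congrFun h0 (e i)
      simpa using this
    · rw [hv', hA']
      exact hn1 _
    · rw [hv', hA']
      exact hn2 _
  · obtain ⟨S, hS, hS2⟩ := h2 _ (hP A hA)
    refine ⟨S.image fun B => B.submatrix e e, Finset.card_image_le.trans hS, fun A' hA' hn => ?_⟩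
    rw [Finset.mem_image]
    refine ⟨_, hS2 _ (hP A' hA') ⟨fun x => ?_, fun x => ?_⟩, rfl⟩
    · rw [hv, hv]
      exact hn.1 _
    · rw [hv, hv]
      exact hn.2 _

end Pool.Agent.Helper95.LF
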