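import Mathlib

namespace Pool.Agent.Helper95.LF

open Finset

def Pd {M : ℕ} (q : (Fin M → ℝ) → ℝ) : Prop :=
  (∃ A : Matrix (Fin M) (Fin M) ℝ, A.IsSymm ∧ ∀ x, q x = dotProduct x (A.mulVec x)) ∧
    ∀ x, x ≠ 0 → 0 < q x

theorem Pd.nonneg {M : ℕ} {q : (Fin M → ℝ) → ℝ} (h : Pd q) (x : Fin M → ℝ) : 0 ≤ q x := by
  obtain ⟨⟨A, hA, hq⟩, hp⟩ := h
  by_cases hx : x = 0
  · rw [hx, hq]
    simp
  · exact (hp x hx).le

theorem form_snoc {M : ℕ} (A : Matrix (Fin (M + 1)) (Fin (M + 1)) ℝ) (hA : A.IsSymm)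
    (y : Fin M → ℝ) (s : ℝ) :
    dotProduct (Fin.snoc y s : Fin (M + 1) → ℝ) (A.mulVec (Fin.snoc y s : Fin (M + 1) → ℝ)) =
      dotProduct y ((A.submatrix Fin.castSucc Fin.castSucc).mulVec y) +
        2 * s * dotProduct y (fun i => A (Fin.castSucc i) (Fin.last M)) +
          A (Fin.last M) (Fin.last M) * s ^ 2 := by
  have hs : ∀ i, A (Fin.last M) (Fin.castSucc i) = A (Fin.castSucc i) (Fin.last M) := by
    intro i
    exact hA.apply _ _
  simp only [dotProduct, Matrix.mulVec, Fin.sum_univ_castSucc, Fin.snoc_castSucc, Fin.snoc_last,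
    Matrix.submatrix_apply, hs]
  have h1 : ∑ x, y x * (∑ x_1, A (Fin.castSucc x) (Fin.castSucc x_1) * y x_1 +
      A (Fin.castSucc x) (Fin.last M) * s) =
      ∑ x, y x * ∑ x_1, A (Fin.castSucc x) (Fin.castSucc x_1) * y x_1 +
        s * ∑ x, y x * A (Fin.castSucc x) (Fin.last M) := by
    rw [Finset.mul_sum, ← Finset.sum_add_distrib]
    refine Finset.sum_congr rfl fun i _ => ?_
    ring
  have h2 : ∑ x, A (Fin.castSucc x) (Fin.last M) * y x =
      ∑ x, y x * A (Fin.castSucc x) (Fin.last M) :=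
    Finset.sum_congr rfl fun i _ => mul_comm _ _
  rw [h1, h2]
  ring

theorem snoc_zero_eq {M : ℕ} {y : Fin M → ℝ} {s : ℝ}
    (h : (Fin.snoc y s : Fin (M + 1) → ℝ) = 0) : y = 0 ∧ s = 0 := by
  constructor
  · funext i
    have := congrFun h (Fin.castSucc i)
    simpa using this
  · have := congrFun h (Fin.last M)
    simpa using this

theorem Pd.split {M : ℕ} {q : (Fin (M + 1) → ℝ) → ℝ} (h : Pd q) :
    ∃ (q1 : (Fin M → ℝ) → ℝ) (v : Fin M → ℝ) (d : ℝ), Pd q1 ∧ 0 < d ∧
      (∀ y, q1 y = q (Fin.snoc y 0)) ∧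
      ∀ y s, q (Fin.snoc y s) = q1 (y + s • v) + d * s ^ 2 := by
  obtain ⟨⟨A, hA, hq⟩, hp⟩ := h
  set A1 : Matrix (Fin M) (Fin M) ℝ := A.submatrix Fin.castSucc Fin.castSucc with hA1
  set a : Fin M → ℝ := fun i => A (Fin.castSucc i) (Fin.last M) with ha
  have hA1s : A1.IsSymm := by
    rw [hA1]
    ext i j
    simpa using hA.apply _ _
  have hq1 : ∀ y : Fin M → ℝ, q (Fin.snoc y 0) = dotProduct y (A1.mulVec y) := by
    intro y
    rw [hq, form_snoc A hA, hA1]
    simp
  have hpos : ∀ y : Fin M → ℝ, y ≠ 0 → 0 < dotProduct y (A1.mulVec y) := by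
    intro y hy
    rw [← hq1]
    exact hp _ fun h0 => hy (snoc_zero_eq h0).1
  have hinj : Function.Injective (Matrix.mulVecLin A1) := by
    rw [← LinearMap.ker_eq_bot, LinearMap.ker_eq_bot']
    intro y hy
    by_contra hne
    have h1 := hpos y hne
    rw [Matrix.mulVecLin_apply] at hy
    rw [hy] at h1
    simp at h1
  have hsurj : Function.Surjective (Matrix.mulVecLin A1) :=
    LinearMap.injective_iff_surjective.1 hinj
  obtain ⟨v, hv⟩ := hsurj a
  rw [Matrix.mulVecLin_apply] at hv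
  have hsym : ∀ x y : Fin M → ℝ, dotProduct x (A1.mulVec y) = dotProduct y (A1.mulVec x) := by
    intro x y
    rw [Matrix.dotProduct_mulVec, ← Matrix.mulVec_transpose, hA1s.eq, dotProduct_comm]
  have hsplit : ∀ (y : Fin M → ℝ) (s : ℝ), q (Fin.snoc y s) =
      dotProduct (y + s • v) (A1.mulVec (y + s • v)) +
        (A (Fin.last M) (Fin.last M) - dotProduct v a) * s ^ 2 := by
    intro y s
    rw [hq, form_snoc A hA, Matrix.mulVec_add, Matrix.mulVec_smul, hv]
    simp only [add_dotProduct, dotProduct_add, smul_dotProduct, dotProduct_smul, smul_eq_mul]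
    rw [hsym v y, hv]
    ring
  refine ⟨fun y => dotProduct y (A1.mulVec y), v, A (Fin.last M) (Fin.last M) - dotProduct v a,
    ⟨⟨A1, hA1s, fun _ => rfl⟩, hpos⟩, ?_, fun y => (hq1 y).symm, hsplit⟩
  have h1 := hsplit (-v) 1
  have h2 : 0 < q (Fin.snoc (-v) 1) := hp _ fun h0 => one_ne_zero (snoc_zero_eq h0).2
  rw [h1] at h2
  simpa using h2

def glue {M : ℕ} (q1 : (Fin M → ℝ) → ℝ) (v : Fin M → ℝ) (d : ℝ) : (Fin (M + 1) → ℝ) → ℝ :=
  fun x => q1 (Fin.init x + x (Fin.last M) • v) + d * x (Fin.last M) ^ 2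

theorem glue_snoc {M : ℕ} (q1 : (Fin M → ℝ) → ℝ) (v : Fin M → ℝ) (d : ℝ) (y : Fin M → ℝ) (s : ℝ) :
    glue q1 v d (Fin.snoc y s) = q1 (y + s • v) + d * s ^ 2 := by
  simp [glue]

theorem Pd.glue {M : ℕ} {q1 : (Fin M → ℝ) → ℝ} (h : Pd q1) (v : Fin M → ℝ) {d : ℝ} (hd : 0 < d) :
    Pd (glue q1 v d) := by
  have hn := h.nonneg
  obtain ⟨⟨A, hA, hq⟩, hp⟩ := h
  constructor
  · let B : Matrix (Fin M) (Fin (M + 1)) ℝ :=
      Matrix.of fun i => (Fin.snoc (fun k => if k = i then (1 : ℝ) else 0) (v i) :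
        Fin (M + 1) → ℝ)
    let e : Fin (M + 1) → ℝ := Pi.single (Fin.last M) 1
    refine ⟨B.transpose * A * B + d • Matrix.vecMulVec e e, ?_, ?_⟩
    · unfold Matrix.IsSymm
      rw [Matrix.transpose_add, Matrix.transpose_mul, Matrix.transpose_mul,
        Matrix.transpose_transpose, hA.eq, Matrix.mul_assoc, Matrix.transpose_smul]
      congr 2
      ext i j
      simp [Matrix.vecMulVec, mul_comm]
    · intro x
      have hB : B.mulVec x = Fin.init x + x (Fin.last M) • v := by
        funext i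
        simp only [B, Matrix.mulVec, dotProduct, Matrix.of_apply, Fin.sum_univ_castSucc,
          Fin.snoc_castSucc, Fin.snoc_last, Pi.add_apply, Pi.smul_apply, smul_eq_mul, Fin.init]
        rw [Finset.sum_eq_single i]
        · simp [mul_comm]
        · intro b _ hb
          simp [hb]
        · intro hb
          exact absurd (Finset.mem_univ i) hb
      have h1 : dotProduct x ((B.transpose * A * B).mulVec x) =
          dotProduct (B.mulVec x) (A.mulVec (B.mulVec x)) := by
        rw [Matrix.mul_assoc, ← Matrix.mulVec_mulVec, ← Matrix.mulVec_mulVec,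
          Matrix.dotProduct_mulVec, Matrix.vecMul_transpose]
      have h2 : dotProduct x ((d • Matrix.vecMulVec e e).mulVec x) = d * x (Fin.last M) ^ 2 := by
        have h3 : (d • Matrix.vecMulVec e e).mulVec x = (d * x (Fin.last M)) • e := by
          funext i
          simp only [Matrix.mulVec, dotProduct, Matrix.smul_apply, Matrix.vecMulVec_apply,
            smul_eq_mul, Pi.smul_apply, e]
          rw [Finset.sum_eq_single (Fin.last M)]
          · simp
            ring
          · intro b _ hb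
            simp [hb]
          · intro hb
            exact absurd (Finset.mem_univ _) hb
        rw [h3, dotProduct_smul]
        simp only [e, dotProduct_single, smul_eq_mul, mul_one]
        ring
      rw [Matrix.add_mulVec, dotProduct_add, h1, h2, hB, ← hq]
      rfl
  · intro x hx
    unfold LF.glue
    by_cases hl : x (Fin.last M) = 0
    · have hi : Fin.init x ≠ 0 := by
        intro h0
        apply hx
        funext i
        refine Fin.lastCases ?_ (fun j => ?_) i
        · simpa using hl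
        · have := congrFun h0 j
          simpa [Fin.init] using this
      have := hp _ hi
      simpa [hl] using this
    · have h1 := hn (Fin.init x + x (Fin.last M) • v)
      have h2 : 0 < d * x (Fin.last M) ^ 2 := by positivity
      linarith

theorem Pd.orth : ∀ {M : ℕ} {q : (Fin M → ℝ) → ℝ}, Pd q →
    ∃ φ : (Fin M → ℝ) →ₗ[ℝ] (Fin M → ℝ), ∀ x, q x = ∑ i, (φ x i) ^ 2 := by
  intro M
  induction M with
  | zero =>
    intro q h
    refine ⟨0, fun x => ?_⟩
    obtain ⟨⟨A, hA, hq⟩, hp⟩ := h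
    rw [hq]
    simp
  | succ M ih =>
    intro q h
    obtain ⟨q1, v, d, h1, hd, -, hs⟩ := h.split
    obtain ⟨φ, hφ⟩ := ih h1
    let ψ : (Fin (M + 1) → ℝ) →ₗ[ℝ] (Fin (M + 1) → ℝ) :=
      { toFun := fun x => Fin.snoc (φ (Fin.init x + x (Fin.last M) • v))
          (Real.sqrt d * x (Fin.last M))
        map_add' := by
          intro x y
          funext i
          refine Fin.lastCases ?_ (fun j => ?_) i
          · simp
            ring
          · have : Fin.init (x + y) + (x (Fin.last M) + y (Fin.last M)) • v =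
                (Fin.init x + x (Fin.last M) • v) + (Fin.init y + y (Fin.last M) • v) := by
              funext j
              simp [Fin.init]
              ring
            simp only [Fin.snoc_castSucc, Pi.add_apply]
            rw [this, map_add, Pi.add_apply]
        map_smul' := by
          intro c x
          funext i
          refine Fin.lastCases ?_ (fun j => ?_) i
          · simp
            ring
          · have : Fin.init (c • x) + (c • x (Fin.last M)) • v =
                c • (Fin.init x + x (Fin.last M) • v) := by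
              funext j
              simp [Fin.init]
              ring
            simp only [Fin.snoc_castSucc, Pi.smul_apply, RingHom.id_apply]
            rw [this, map_smul, Pi.smul_apply] }
    refine ⟨ψ, fun x => ?_⟩
    have hx : x = Fin.snoc (Fin.init x) (x (Fin.last M)) := (Fin.snoc_init_self x).symm
    have h2 : q x = q1 (Fin.init x + x (Fin.last M) • v) + d * x (Fin.last M) ^ 2 := by
      conv_lhs => rw [hx]
      rw [hs]
    rw [h2, hφ, Fin.sum_univ_castSucc]
    have h3 : ∀ i, ψ x (Fin.castSucc i) = φ (Fin.init x + x (Fin.last M) • v) i := by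
      intro i
      simp [ψ]
    have h4 : ψ x (Fin.last M) = Real.sqrt d * x (Fin.last M) := by
      simp [ψ]
    rw [h4, mul_pow, Real.sq_sqrt hd.le]
    simp only [h3]

theorem Pd.add_le {M : ℕ} {q : (Fin M → ℝ) → ℝ} (h : Pd q) (x y : Fin M → ℝ) :
    q (x + y) ≤ 2 * q x + 2 * q y := by
  obtain ⟨φ, hφ⟩ := h.orth
  rw [hφ, hφ, hφ, Finset.mul_sum, Finset.mul_sum, ← Finset.sum_add_distrib]
  refine Finset.sum_le_sum fun i _ => ?_
  rw [map_add, Pi.add_apply]
  nlinarith [sq_nonneg (φ x i - φ y i)]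

theorem Pd.neg {M : ℕ} {q : (Fin M → ℝ) → ℝ} (h : Pd q) (x : Fin M → ℝ) : q (-x) = q x := by
  obtain ⟨φ, hφ⟩ := h.orth
  rw [hφ, hφ]
  refine Finset.sum_congr rfl fun i _ => ?_
  rw [map_neg, Pi.neg_apply]
  ring

theorem Pd.zero {M : ℕ} {q : (Fin M → ℝ) → ℝ} (h : Pd q) : q 0 = 0 := by
  obtain ⟨φ, hφ⟩ := h.orth
  rw [hφ]
  simp

theorem Pd.smul {M : ℕ} {q : (Fin M → ℝ) → ℝ} (h : Pd q) (s : ℝ) (x : Fin M → ℝ) :
    q (s • x) = s ^ 2 * q x := by
  obtain ⟨φ, hφ⟩ := h.orth
  rw [hφ, hφ, Finset.mul_sum]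
  refine Finset.sum_congr rfl fun i _ => ?_
  rw [map_smul, Pi.smul_apply, smul_eq_mul]
  ring

theorem vec_round {M : ℕ} {P : (Fin M → ℝ) → ℝ} (h : Pd P) {μ : ℝ} (hμ : 0 < μ) :
    ∃ r : (Fin M → ℝ) → (Fin M → ℝ), (∀ v, P (r v - v) ≤ M * μ ^ 2) ∧
      ∀ v, ∃ f : (Fin M → Fin 3) → (Fin M → ℝ), ∀ v', P (v' - v) ≤ μ ^ 2 → ∃ i, r v' = f i := by
  obtain ⟨φ, hφ⟩ := h.orth
  let cl : (Fin M → ℝ) → (Fin M → ℤ) := fun v i => ⌊φ v i / μ⌋
  let pick : (Fin M → ℤ) → (Fin M → ℝ) := Function.invFun cl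
  have hpick : ∀ v, cl (pick (cl v)) = cl v := fun v => Function.invFun_eq ⟨v, rfl⟩
  refine ⟨fun v => pick (cl v), fun v => ?_, fun v => ?_⟩
  · rw [hφ]
    have h1 : ∀ i, (φ (pick (cl v) - v) i) ^ 2 ≤ μ ^ 2 := by
      intro i
      have h2 := congrFun (hpick v) i
      simp only [cl] at h2
      have h3 := Int.floor_le (φ (pick (cl v)) i / μ)
      have h4 := Int.lt_floor_add_one (φ (pick (cl v)) i / μ)
      have h5 := Int.floor_le (φ v i / μ)
      have h6 := Int.lt_floor_add_one (φ v i / μ)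
      simp only [cl] at h3 h4
      rw [h2] at h3 h4
      rw [map_sub, Pi.sub_apply]
      have h7 : |(φ (pick fun i => ⌊φ v i / μ⌋) i - φ v i) / μ| ≤ 1 := by
        rw [sub_div, abs_le]
        constructor <;> linarith
      rw [abs_div, abs_of_pos hμ, div_le_one hμ] at h7
      have h8 := abs_le.1 h7
      exact sq_le_sq' h8.1 h8.2
    calc ∑ i, (φ (pick (cl v) - v) i) ^ 2 ≤ ∑ _i : Fin M, μ ^ 2 := Finset.sum_le_sum fun i _ => h1 i
      _ = M * μ ^ 2 := by simp
  · refine ⟨fun s => pick fun i => cl v i + ((s i : ℕ) : ℤ) - 1, fun v' hv' => ?_⟩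
    have h1 : ∀ i, |φ v' i - φ v i| ≤ μ := by
      intro i
      rw [hφ] at hv'
      have h2 : (φ (v' - v) i) ^ 2 ≤ μ ^ 2 :=
        (Finset.single_le_sum (f := fun i => (φ (v' - v) i) ^ 2) (fun j _ => sq_nonneg _)
          (Finset.mem_univ i)).trans hv'
      rw [map_sub, Pi.sub_apply] at h2
      exact abs_le_of_sq_le_sq h2 hμ.le
    have h3 : ∀ i, ∃ k : Fin 3, cl v' i = cl v i + ((k : ℕ) : ℤ) - 1 := by
      intro i
      have h4 : |φ v' i / μ - φ v i / μ| ≤ 1 := by
        rw [← sub_div, abs_div, abs_of_pos hμ, div_le_one hμ]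
        exact h1 i
      have h5 := abs_le.1 h4
      have h6 : ⌊φ v i / μ⌋ - 1 ≤ ⌊φ v' i / μ⌋ := by
        rw [Int.le_floor]
        push_cast
        have := Int.floor_le (φ v i / μ)
        linarith
      have h7 : ⌊φ v' i / μ⌋ ≤ ⌊φ v i / μ⌋ + 1 := by
        rw [← Int.lt_add_one_iff, Int.floor_lt]
        push_cast
        have := Int.lt_floor_add_one (φ v i / μ)
        linarith
      refine ⟨⟨(⌊φ v' i / μ⌋ - ⌊φ v i / μ⌋ + 1).toNat, by omega⟩, ?_⟩
      simp only [cl]
      omega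
    choose k hk using h3
    refine ⟨k, ?_⟩
    have : cl v' = fun i => cl v i + ((k i : ℕ) : ℤ) - 1 := funext hk
    simp only [this]

def Near {M : ℕ} (L : ℝ) (q q' : (Fin M → ℝ) → ℝ) : Prop :=
  (∀ x, q x ≤ Real.exp L * q' x) ∧ ∀ x, q' x ≤ Real.exp L * q x

theorem round_step (M : ℕ) (C : ℝ) (hC : 1 ≤ C) (ι : Type) (L : ℝ) (hL : 1 ≤ L)
    (Q : ((Fin M → ℝ) → ℝ) → ((Fin M → ℝ) → ℝ))
    (h1 : ∀ q, Pd q → Pd (Q q) ∧ Near (C * L) q (Q q))
    (h2 : ∀ q, Pd q → ∃ f : ι → ((Fin M → ℝ) → ℝ), ∀ q', Pd q' → Near L q q' → ∃ i, Q q' = f i) :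
    ∃ Q' : ((Fin (M + 1) → ℝ) → ℝ) → ((Fin (M + 1) → ℝ) → ℝ),
      (∀ q, Pd q → Pd (Q' q) ∧ Near ((2 * C + 2 * M + 6) * L) q (Q' q)) ∧
      (∀ q, Pd q → ∃ f : (ι × Fin 3 × (Fin M → Fin 3)) → ((Fin (M + 1) → ℝ) → ℝ),
        ∀ q', Pd q' → Near L q q' → ∃ i, Q' q' = f i) := by
  classical
  have hv : ∀ (P : (Fin M → ℝ) → ℝ) (μ : ℝ), ∃ r : (Fin M → ℝ) → (Fin M → ℝ),
      Pd P → 0 < μ → (∀ v, P (r v - v) ≤ M * μ ^ 2) ∧
        ∀ v, ∃ f : (Fin M → Fin 3) → (Fin M → ℝ), ∀ v', P (v' - v) ≤ μ ^ 2 → ∃ i, r v' = f i := by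
    intro P μ
    by_cases h : Pd P ∧ 0 < μ
    · obtain ⟨r, hr⟩ := vec_round h.1 h.2
      exact ⟨r, fun _ _ => hr⟩
    · exact ⟨id, fun a b => absurd ⟨a, b⟩ h⟩
  choose r hr using hv
  have hs : ∀ q : (Fin (M + 1) → ℝ) → ℝ, ∃ (q1 : (Fin M → ℝ) → ℝ) (v : Fin M → ℝ) (d : ℝ),
      Pd q → (Pd q1 ∧ 0 < d ∧ (∀ y, q1 y = q (Fin.snoc y 0)) ∧
      ∀ y s, q (Fin.snoc y s) = q1 (y + s • v) + d * s ^ 2) := by
    intro q
    by_cases h : Pd q
    · obtain ⟨q1, v, d, h⟩ := h.split
      exact ⟨q1, v, d, fun _ => h⟩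
    · exact ⟨0, 0, 0, fun h' => absurd h' h⟩
  choose q1 v d hq using hs
  let bt : ℤ → ℝ := fun k => Real.exp (L * k)
  let mu : ℤ → ℝ := fun k => Real.exp ((C + 3) * L / 2) * Real.exp (L * k / 2)
  have hbt : ∀ k, 0 < bt k := fun k => Real.exp_pos _
  have hmu : ∀ k, 0 < mu k := fun k => mul_pos (Real.exp_pos _) (Real.exp_pos _)
  have hmu2 : ∀ k, mu k ^ 2 = Real.exp ((C + 3) * L) * bt k := by
    intro k
    simp only [mu, bt]
    rw [mul_pow, ← Real.exp_nat_mul, ← Real.exp_nat_mul]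
    congr 1 <;> congr 1 <;> push_cast <;> ring
  have hL0 : 0 < L := by linarith
  let kk : ℝ → ℤ := fun d => ⌊Real.log d / L⌋
  have hk1 : ∀ d : ℝ, 0 < d → bt (kk d) ≤ d := by
    intro d hd
    simp only [bt, kk]
    have h3 := Int.floor_le (Real.log d / L)
    rw [le_div_iff₀ hL0] at h3
    calc Real.exp (L * ⌊Real.log d / L⌋) ≤ Real.exp (Real.log d) :=
          Real.exp_le_exp.2 (by linarith)
      _ = d := Real.exp_log hd
  have hk2 : ∀ d : ℝ, 0 < d → d ≤ Real.exp L * bt (kk d) := by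
    intro d hd
    simp only [bt, kk]
    have h3 := (Int.lt_floor_add_one (Real.log d / L)).le
    rw [div_le_iff₀ hL0] at h3
    rw [← Real.exp_add]
    calc d = Real.exp (Real.log d) := (Real.exp_log hd).symm
      _ ≤ _ := Real.exp_le_exp.2 (by linarith)
  let Q' : ((Fin (M + 1) → ℝ) → ℝ) → ((Fin (M + 1) → ℝ) → ℝ) := fun q =>
    glue (Q (q1 q)) (r (Q (q1 q)) (mu (kk (d q))) (v q)) (bt (kk (d q)))
  refine ⟨Q', fun q hqp => ?_, fun q hqp => ?_⟩
  · obtain ⟨hq1, hd, -, hqs⟩ := hq q hqp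
    obtain ⟨hP, hPl, hPu⟩ := h1 _ hq1
    set P := Q (q1 q) with hPdef
    set k := kk (d q) with hkdef
    obtain ⟨hr1, -⟩ := hr P (mu k) hP (hmu k)
    have hr2 := hr1 (v q)
    set w := r P (mu k) (v q) with hw
    rw [hmu2] at hr2
    have hb1 := hk1 _ hd
    have hb2 := hk2 _ hd
    rw [← hkdef] at hb1 hb2
    have hbp := hbt k
    have hQ' : Q' q = glue P w (bt k) := rfl
    have hnP := hP.nonneg
    have hn1 := hq1.nonneg
    set e1 := Real.exp (C * L) with he1
    set e3 := Real.exp ((C + 3) * L) with he3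
    set K := Real.exp ((2 * C + 2 * M + 6) * L) with hK
    have he1p : 0 < e1 := Real.exp_pos _
    have he3p : 0 < e3 := Real.exp_pos _
    have hM0 : (0 : ℝ) ≤ M := Nat.cast_nonneg M
    have hK2 : 2 * M * e1 * e3 + Real.exp L ≤ K := by
      have a1 : (2 * M + 1 : ℝ) ≤ Real.exp (2 * M * L) := by
        have := Real.add_one_le_exp (2 * (M : ℝ) * L)
        nlinarith
      have a2 : e1 * e3 = Real.exp ((2 * C + 3) * L) := by
        rw [he1, he3, ← Real.exp_add]
        congr 1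
        ring
      have a3 : Real.exp L ≤ Real.exp ((2 * C + 3) * L) := Real.exp_le_exp.2 (by nlinarith)
      have a4 : Real.exp (2 * M * L) * Real.exp ((2 * C + 3) * L) ≤ K := by
        rw [hK, ← Real.exp_add]
        exact Real.exp_le_exp.2 (by nlinarith)
      have a5 := Real.exp_pos ((2 * C + 3) * L)
      calc 2 * M * e1 * e3 + Real.exp L = 2 * M * (e1 * e3) + Real.exp L := by ring
        _ ≤ 2 * M * Real.exp ((2 * C + 3) * L) + Real.exp ((2 * C + 3) * L) := by
            rw [a2]; linarith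
        _ = (2 * M + 1) * Real.exp ((2 * C + 3) * L) := by ring
        _ ≤ Real.exp (2 * M * L) * Real.exp ((2 * C + 3) * L) :=
            mul_le_mul_of_nonneg_right a1 a5.le
        _ ≤ K := a4
    have hK1 : 2 * e1 ≤ K := by
      have a1 : (2 : ℝ) ≤ Real.exp L := by
        have := Real.add_one_le_exp L
        linarith
      calc 2 * e1 ≤ Real.exp L * e1 := mul_le_mul_of_nonneg_right a1 he1p.le
        _ = Real.exp (L + C * L) := by rw [he1, ← Real.exp_add]
        _ ≤ K := Real.exp_le_exp.2 (by nlinarith)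
    have he11 : 1 ≤ e1 := by
      rw [he1]
      exact Real.one_le_exp (by nlinarith)
    have heL1 : 1 ≤ Real.exp L := Real.one_le_exp hL0.le
    have hK3 : 2 * M * e3 + 1 ≤ K := by
      have : 2 * M * e3 ≤ 2 * M * e1 * e3 := by
        have : 0 ≤ 2 * (M : ℝ) * e3 := by positivity
        nlinarith
      linarith
    refine ⟨by rw [hQ']; exact hP.glue _ hbp, ?_, ?_⟩
    · intro x
      have hx : x = Fin.snoc (Fin.init x) (x (Fin.last M)) := (Fin.snoc_init_self x).symm
      generalize Fin.init x = y at hx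
      generalize x (Fin.last M) = s at hx
      subst hx
      rw [hQ', glue_snoc, hqs]
      have b1 : q1 q (y + s • v q) ≤ e1 * P (y + s • v q) := hPl _
      have b2 : P (y + s • v q) ≤ 2 * P (y + s • w) + 2 * (s ^ 2 * P (w - v q)) := by
        have b3 : y + s • v q = (y + s • w) + (-(s • (w - v q))) := by
          rw [smul_sub]
          abel
        rw [b3]
        refine (hP.add_le _ _).trans ?_
        rw [hP.neg, hP.smul]
      have b4 : s ^ 2 * P (w - v q) ≤ s ^ 2 * (M * (e3 * bt k)) :=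
        mul_le_mul_of_nonneg_left hr2 (sq_nonneg s)
      have b5 : 0 ≤ s ^ 2 * bt k := by positivity
      have b6 : d q * s ^ 2 ≤ Real.exp L * (s ^ 2 * bt k) := by
        have := mul_le_mul_of_nonneg_right hb2 (sq_nonneg s)
        linarith
      have b7 := hnP (y + s • w)
      calc q1 q (y + s • v q) + d q * s ^ 2 ≤
          e1 * (2 * P (y + s • w) + 2 * (s ^ 2 * (M * (e3 * bt k)))) +
            Real.exp L * (s ^ 2 * bt k) := by
            have := mul_le_mul_of_nonneg_left (b2.trans (by linarith :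
              2 * P (y + s • w) + 2 * (s ^ 2 * P (w - v q)) ≤
              2 * P (y + s • w) + 2 * (s ^ 2 * (M * (e3 * bt k))))) he1p.le
            linarith
        _ = 2 * e1 * P (y + s • w) + (2 * M * e1 * e3 + Real.exp L) * (s ^ 2 * bt k) := by ring
        _ ≤ K * P (y + s • w) + K * (s ^ 2 * bt k) :=
            add_le_add (mul_le_mul_of_nonneg_right hK1 b7) (mul_le_mul_of_nonneg_right hK2 b5)
        _ = K * (P (y + s • w) + bt k * s ^ 2) := by ring
    · intro x
      have hx : x = Fin.snoc (Fin.init x) (x (Fin.last M)) := (Fin.snoc_init_self x).symm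
      generalize Fin.init x = y at hx
      generalize x (Fin.last M) = s at hx
      subst hx
      rw [hQ', glue_snoc, hqs]
      have b1 : P (y + s • v q) ≤ e1 * q1 q (y + s • v q) := hPu _
      have b2 : P (y + s • w) ≤ 2 * P (y + s • v q) + 2 * (s ^ 2 * P (w - v q)) := by
        have b3 : y + s • w = (y + s • v q) + (s • (w - v q)) := by
          rw [smul_sub]
          abel
        rw [b3]
        refine (hP.add_le _ _).trans ?_
        rw [hP.smul]
      have b4 : s ^ 2 * P (w - v q) ≤ s ^ 2 * (M * (e3 * bt k)) :=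
        mul_le_mul_of_nonneg_left hr2 (sq_nonneg s)
      have b5 : s ^ 2 * bt k ≤ s ^ 2 * d q := mul_le_mul_of_nonneg_left hb1 (sq_nonneg s)
      have b6 : 0 ≤ s ^ 2 * bt k := by positivity
      have b7 := hn1 (y + s • v q)
      have b8 : (2 * M * e3 + 1) * (s ^ 2 * bt k) ≤ K * (s ^ 2 * d q) :=
        mul_le_mul hK3 b5 b6 (Real.exp_pos _).le
      calc P (y + s • w) + bt k * s ^ 2 ≤
          2 * e1 * q1 q (y + s • v q) + (2 * M * e3 + 1) * (s ^ 2 * bt k) := by linarith
        _ ≤ K * q1 q (y + s • v q) + K * (s ^ 2 * d q) :=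
            add_le_add (mul_le_mul_of_nonneg_right hK1 b7) b8
        _ = K * (q1 q (y + s • v q) + d q * s ^ 2) := by ring
  · obtain ⟨hq1, hd, hqr, hqs⟩ := hq q hqp
    obtain ⟨f1, hf1⟩ := h2 _ hq1
    have hF : ∀ (P : (Fin M → ℝ) → ℝ) (k : ℤ), ∃ F : (Fin M → Fin 3) → (Fin M → ℝ),
        Pd P → ∀ v', P (v' - v q) ≤ mu k ^ 2 → ∃ i, r P (mu k) v' = F i := by
      intro P k
      by_cases h : Pd P
      · obtain ⟨F, hF⟩ := (hr P (mu k) h (hmu k)).2 (v q)
        exact ⟨F, fun _ => hF⟩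
      · exact ⟨fun _ => 0, fun h' => absurd h' h⟩
    choose F hF using hF
    refine ⟨fun t => glue (f1 t.1) (F (f1 t.1) (kk (d q) + ((t.2.1 : ℕ) : ℤ) - 1) t.2.2)
      (bt (kk (d q) + ((t.2.1 : ℕ) : ℤ) - 1)), fun q' hqp' hnear => ?_⟩
    obtain ⟨hq1', hd', hqr', hqs'⟩ := hq q' hqp'
    obtain ⟨i, hi⟩ := hf1 (q1 q') hq1' ⟨fun y => by rw [hqr, hqr']; exact hnear.1 _,
      fun y => by rw [hqr, hqr']; exact hnear.2 _⟩
    have c1 : q (Fin.snoc (-v q) 1) = d q := by
      rw [hqs, one_smul, neg_add_cancel, hq1.zero]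
      ring
    have c2 : q' (Fin.snoc (-v q') 1) = d q' := by
      rw [hqs', one_smul, neg_add_cancel, hq1'.zero]
      ring
    have c3 : q1 q' (v q' - v q) + d q' ≤ Real.exp L * d q := by
      have := hnear.2 (Fin.snoc (-v q) 1)
      rw [c1, hqs', one_smul, neg_add_eq_sub] at this
      linarith
    have c4 : d q ≤ Real.exp L * d q' := by
      have := hnear.1 (Fin.snoc (-v q') 1)
      rw [c2, hqs, one_smul] at this
      have := hq1.nonneg (-v q' + v q)
      linarith
    have c5 : d q' ≤ Real.exp L * d q := by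
      have := hq1'.nonneg (v q' - v q)
      linarith
    have c6 : Real.log (d q') ≤ L + Real.log (d q) := by
      have := Real.log_le_log hd' c5
      rwa [Real.log_mul (Real.exp_pos _).ne' hd.ne', Real.log_exp] at this
    have c7 : Real.log (d q) ≤ L + Real.log (d q') := by
      have := Real.log_le_log hd c4
      rwa [Real.log_mul (Real.exp_pos _).ne' hd'.ne', Real.log_exp] at this
    have c8 : kk (d q') ≤ kk (d q) + 1 := by
      simp only [kk]
      rw [← Int.lt_add_one_iff, Int.floor_lt]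
      push_cast
      have := Int.lt_floor_add_one (Real.log (d q) / L)
      have h9 : Real.log (d q') / L ≤ 1 + Real.log (d q) / L := by
        rw [div_le_iff₀ hL0, add_mul, div_mul_cancel₀ _ hL0.ne']
        linarith
      linarith
    have c9 : kk (d q) - 1 ≤ kk (d q') := by
      simp only [kk]
      rw [Int.le_floor]
      push_cast
      have := Int.floor_le (Real.log (d q) / L)
      have h9 : Real.log (d q) / L ≤ 1 + Real.log (d q') / L := by
        rw [div_le_iff₀ hL0, add_mul, div_mul_cancel₀ _ hL0.ne']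
        linarith
      linarith
    obtain ⟨j, hj⟩ : ∃ j : Fin 3, kk (d q') = kk (d q) + ((j : ℕ) : ℤ) - 1 :=
      ⟨⟨(kk (d q') - kk (d q) + 1).toNat, by omega⟩, by simp only; omega⟩
    obtain ⟨hP, hPl, hPu⟩ := h1 _ hq1'
    have c10 : Q (q1 q') (v q' - v q) ≤ mu (kk (d q')) ^ 2 := by
      rw [hmu2]
      have d1 := hPu (v q' - v q)
      have d2 := hk2 _ hd'
      have d3 : q1 q' (v q' - v q) ≤ Real.exp L * (Real.exp L * d q') := by
        have := mul_le_mul_of_nonneg_left c4 (Real.exp_pos L).le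
        linarith
      have d4 : Real.exp ((C + 3) * L) =
          Real.exp (C * L) * (Real.exp L * (Real.exp L * Real.exp L)) := by
        rw [← Real.exp_add, ← Real.exp_add, ← Real.exp_add]
        congr 1
        ring
      calc Q (q1 q') (v q' - v q) ≤ Real.exp (C * L) * q1 q' (v q' - v q) := d1
        _ ≤ Real.exp (C * L) * (Real.exp L * (Real.exp L * d q')) :=
            mul_le_mul_of_nonneg_left d3 (Real.exp_pos _).le
        _ ≤ Real.exp (C * L) * (Real.exp L * (Real.exp L * (Real.exp L * bt (kk (d q'))))) :=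
            mul_le_mul_of_nonneg_left (mul_le_mul_of_nonneg_left
              (mul_le_mul_of_nonneg_left d2 (Real.exp_pos _).le) (Real.exp_pos _).le)
              (Real.exp_pos _).le
        _ = Real.exp ((C + 3) * L) * bt (kk (d q')) := by rw [d4]; ring
    obtain ⟨t, ht⟩ := hF (Q (q1 q')) (kk (d q')) hP (v q') c10
    refine ⟨(i, j, t), ?_⟩
    simp only [Q']
    rw [ht, hi, hj]

end Pool.Agent.Helper95.LF
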